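import Mathlib

open MeasureTheory Set Metric Complex ComplexConjugate

namespace Pool.Agent.Results.MP_6004b5_an.No

/-- The class `ℋ`: `f = h + conj g` on the unit disk with `h, g` analytic, Jacobian
`|h'|² - |g'|² > 0`, injective on the disk and mapping it into itself. -/
def InH (f : ℂ → ℂ) : Prop :=
  ∃ h g : ℂ → ℂ, DifferentiableOn ℂ h (ball 0 1) ∧ DifferentiableOn ℂ g (ball 0 1) ∧
    (∀ z ∈ ball (0 : ℂ) 1, f z = h z + conj (g z)) ∧
    (∀ z ∈ ball (0 : ℂ) 1, 0 < ‖deriv h z‖ ^ 2 - ‖deriv g z‖ ^ 2) ∧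
    InjOn f (ball 0 1) ∧ MapsTo f (ball 0 1) (ball 0 1)

/-- The conformal automorphism `z ↦ e^{iθ} (z - a) / (1 - conj a z)`. -/
noncomputable def aut (θ : ℝ) (a : ℂ) (z : ℂ) : ℂ := exp (θ * I) * ((z - a) / (1 - conj a * z))

lemma det_eq (L : ℂ →L[ℝ] ℂ) : L.det = (L 1).re * (L I).im - (L I).re * (L 1).im := by
  rw [ContinuousLinearMap.det, ← LinearMap.det_toMatrix Complex.basisOneI, Matrix.det_fin_two]
  simp [LinearMap.toMatrix_apply]

lemma area {E : Set ℂ} (hE : MeasurableSet E) {h g h' g' : ℂ → ℂ}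
    (hh : ∀ z ∈ E, HasDerivAt h (h' z) z) (hg : ∀ z ∈ E, HasDerivAt g (g' z) z)
    (hi : InjOn (fun z => h z + conj (g z)) E) :
    volume ((fun z => h z + conj (g z)) '' E)
      = ∫⁻ z in E, ENNReal.ofReal |normSq (h' z) - normSq (g' z)| := by
  rw [← lintegral_abs_det_fderiv_eq_addHaar_image volume hE
    (f' := fun z => (ContinuousLinearMap.toSpanSingleton ℂ (h' z)).restrictScalars ℝ +
      (conjCLE : ℂ →L[ℝ] ℂ).comp ((ContinuousLinearMap.toSpanSingleton ℂ (g' z)).restrictScalars ℝ))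
    (fun z hz => ?_) hi]
  · congr 1; funext z
    rw [det_eq]
    congr 2
    simp [normSq_apply]
    ring
  · exact (((hh z hz).hasFDerivAt.restrictScalars ℝ).add
      ((conjCLE : ℂ →L[ℝ] ℂ).hasFDerivAt.comp z
        ((hg z hz).hasFDerivAt.restrictScalars ℝ))).hasFDerivWithinAt

def E : Set ℂ := {z | 1 / 16 < (z ^ 2).re ∧ ‖z‖ < 1 / 3}

lemma E_open : IsOpen E := by
  have h1 : IsOpen {z : ℂ | 1 / 16 < (z ^ 2).re} := isOpen_lt continuous_const (by fun_prop)
  have h2 : IsOpen {z : ℂ | ‖z‖ < 1 / 3} := isOpen_lt continuous_norm continuous_const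
  exact h1.inter h2

lemma E_neg {z : ℂ} (h : z ∈ E) : -z ∈ E := by
  simpa [E] using h

lemma den_ne {a z : ℂ} (ha : ‖a‖ < 1) (hz : ‖z‖ < 1 / 3) : 1 - conj a * z ≠ 0 := by
  intro h
  have : ‖conj a * z‖ = 1 := by rw [← sub_eq_zero.1 h]; simp
  rw [norm_mul, Complex.norm_conj] at this
  nlinarith [norm_nonneg a, norm_nonneg z]

lemma aut_deriv (θ : ℝ) {a z : ℂ} (h : 1 - conj a * z ≠ 0) :
    HasDerivAt (aut θ a) (exp (θ * I) * ((1 - conj a * a) / (1 - conj a * z) ^ 2)) z := by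
  have h1 : HasDerivAt (fun z => z - a) 1 z := (hasDerivAt_id z).sub_const a
  have h2 : HasDerivAt (fun z => 1 - conj a * z) (-conj a) z := by
    simpa using ((hasDerivAt_id z).const_mul (conj a)).const_sub 1
  refine ((h1.div h2 h).const_mul _).congr_deriv ?_
  congr 2; ring

lemma aut_inj (θ : ℝ) {a : ℂ} (ha : ‖a‖ < 1) : InjOn (aut θ a) E := by
  intro z hz w hw h
  have h1 := den_ne ha hz.2
  have h2 := den_ne ha hw.2
  have h3 : 1 - conj a * a ≠ 0 := by
    intro h
    have : ‖conj a * a‖ = 1 := by rw [← sub_eq_zero.1 h]; simp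
    rw [norm_mul, Complex.norm_conj] at this
    nlinarith [norm_nonneg a]
  have := mul_left_cancel₀ (exp_ne_zero _) h
  rw [div_eq_div_iff h1 h2] at this
  have h4 : (1 - conj a * a) * (z - w) = 0 := by linear_combination this
  exact sub_eq_zero.1 ((mul_eq_zero.1 h4).resolve_left h3)

lemma key_ineq {s m x : ℝ} (hs : s < 1) (hm : 9 * m ≤ s) (hx : x ^ 2 ≤ m) :
    (1 - s) ^ 2 / (1 - 2 * x + m) ^ 2 + (1 - s) ^ 2 / (1 + 2 * x + m) ^ 2 ≤ 2 := by
  have m0 : 0 ≤ m := (sq_nonneg x).trans hx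
  have hP : 0 < 1 - 2 * x + m := by nlinarith [sq_nonneg (x - 1 / 3)]
  have hQ : 0 < 1 + 2 * x + m := by nlinarith [sq_nonneg (x + 1 / 3)]
  rw [div_add_div _ _ (by positivity) (by positivity), div_le_iff₀ (by positivity)]
  have h1 : (1 - m) ^ 2 ≤ (1 - 2 * x + m) * (1 + 2 * x + m) := by nlinarith
  have h2 : (1 - s) * (1 + 3 * m) ≤ (1 - m) ^ 2 := by nlinarith
  have h3 : ((1 - s) * (1 + 3 * m)) ^ 2 ≤ ((1 - 2 * x + m) * (1 + 2 * x + m)) ^ 2 :=
    pow_le_pow_left₀ (by nlinarith) (h2.trans h1) 2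
  have h4 : (1 + 2 * x + m) ^ 2 + (1 - 2 * x + m) ^ 2 ≤ 2 * (1 + 3 * m) ^ 2 := by nlinarith
  have h5 := mul_le_mul_of_nonneg_left h4 (sq_nonneg (1 - s))
  nlinarith

lemma aut_area (θ : ℝ) {a : ℂ} (ha : ‖a‖ < 1) : volume (aut θ a '' E) ≤ volume E := by
  set J : ℂ → ℝ := fun z => normSq (exp (θ * I) * ((1 - conj a * a) / (1 - conj a * z) ^ 2))
    with hJ
  have A1 := area E_open.measurableSet (h := aut θ a) (g := fun _ => 0) (g' := fun _ => 0)
    (fun z hz => aut_deriv θ (den_ne ha hz.2)) (fun z _ => hasDerivAt_const z 0)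
    (by simpa using aut_inj θ ha)
  have A2 := area E_open.measurableSet (h := fun z => aut θ a (-z)) (g := fun _ => 0)
    (g' := fun _ => 0)
    (fun z hz => (aut_deriv θ (den_ne ha (E_neg hz).2)).comp z (hasDerivAt_neg z))
    (fun z _ => hasDerivAt_const z 0)
    (by
      intro z hz w hw h
      simp only [map_zero, add_zero] at h
      exact neg_injective (aut_inj θ ha (E_neg hz) (E_neg hw) h))
  simp only [map_zero, add_zero, sub_zero, mul_neg, mul_one, normSq_neg] at A1 A2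
  have e : (fun z => aut θ a (-z)) '' E = (fun z => aut θ a z) '' E := by
    ext w
    constructor
    · rintro ⟨z, hz, rfl⟩; exact ⟨-z, E_neg hz, rfl⟩
    · rintro ⟨z, hz, rfl⟩; exact ⟨-z, E_neg hz, by simp⟩
  rw [e] at A2
  have hm : Measurable fun z : ℂ => ENNReal.ofReal
      |normSq (exp (θ * I) * ((1 - conj a * a) / (1 - conj a * z) ^ 2))| := by
    refine ENNReal.measurable_ofReal.comp (Measurable.abs ?_)
    exact continuous_normSq.measurable.comp (by fun_prop)
  have key : 2 * volume ((fun z => aut θ a z) '' E) ≤ 2 * volume E := by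
    rw [two_mul]
    nth_rw 2 [A2]
    rw [A1, ← lintegral_add_left hm, ← setLIntegral_const]
    refine setLIntegral_mono' E_open.measurableSet fun z hz => ?_
    rw [← ENNReal.ofReal_add (abs_nonneg _) (abs_nonneg _), abs_of_nonneg (normSq_nonneg _),
      abs_of_nonneg (normSq_nonneg _), ← ENNReal.ofReal_ofNat]
    refine ENNReal.ofReal_le_ofReal ?_
    have he : normSq (exp (θ * I)) = 1 := by
      rw [normSq_eq_norm_sq, norm_exp_ofReal_mul_I]; norm_num
    have hn : normSq (1 - conj a * a) = (1 - normSq a) ^ 2 := by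
      rw [mul_comm, mul_conj, ← ofReal_one, ← ofReal_sub, normSq_ofReal, sq]
    simp only [map_mul, map_div₀, map_pow, he, hn, one_mul, sub_neg_eq_add]
    have e1 : normSq (1 - conj a * z) = 1 - 2 * (conj a * z).re + normSq (conj a * z) := by
      rw [normSq_apply, normSq_apply]; simp only [sub_re, sub_im, one_re, one_im]; ring
    have e2 : normSq (1 + conj a * z) = 1 + 2 * (conj a * z).re + normSq (conj a * z) := by
      rw [normSq_apply, normSq_apply]; simp only [add_re, add_im, one_re, one_im]; ring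
    rw [e1, e2]
    refine key_ineq ?_ ?_ ?_
    · rw [normSq_eq_norm_sq]; nlinarith [norm_nonneg a]
    · rw [map_mul, normSq_conj, normSq_eq_norm_sq z]
      have : ‖z‖ ^ 2 ≤ 1 / 9 := by nlinarith [norm_nonneg z, hz.2]
      nlinarith [normSq_nonneg a]
    · rw [normSq_apply]; nlinarith [mul_self_nonneg (conj a * z).im]
  exact (ENNReal.mul_le_mul_iff_right two_ne_zero ENNReal.ofNat_ne_top).1 key

noncomputable def hh (z : ℂ) : ℂ := 199 / 200 * (z + z ^ 3 / 20)
noncomputable def gg (z : ℂ) : ℂ := -(199 / 4000) * z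

lemma hh_deriv (z : ℂ) : HasDerivAt hh (199 / 200 * (1 + 3 * z ^ 2 / 20)) z := by
  refine (((hasDerivAt_id z).add ((hasDerivAt_pow 3 z).div_const 20)).const_mul
    (199 / 200)).congr_deriv ?_
  norm_num

lemma gg_deriv (z : ℂ) : HasDerivAt gg (-(199 / 4000)) z := by
  exact ((hasDerivAt_id z).const_mul (-(199 / 4000) : ℂ)).congr_deriv (mul_one _)

lemma f_eq (z : ℂ) : hh z + conj (gg z) = 199 / 200 * (z + (z ^ 3 - conj z) / 20) := by
  simp only [hh, gg, map_mul, map_neg, map_div₀, map_ofNat]; ring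

lemma f_inj : InjOn (fun z => hh z + conj (gg z)) (ball 0 1) := by
  intro z hz w hw h
  simp only [f_eq] at h
  rw [mem_ball_zero_iff] at hz hw
  have h1 : z - w = -((z - w) * (z ^ 2 + z * w + w ^ 2) - conj (z - w)) / 20 := by
    rw [map_sub]; linear_combination (200 / 199) * h
  have h2 : ‖z ^ 2 + z * w + w ^ 2‖ ≤ 3 := by
    refine norm_add₃_le.trans ?_
    rw [norm_pow, norm_pow, norm_mul]
    nlinarith [norm_nonneg z, norm_nonneg w]
  have h3 : ‖z - w‖ ≤ (‖z - w‖ * 3 + ‖z - w‖) / 20 := by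
    conv_lhs => rw [h1]
    rw [norm_div, norm_neg]
    simp only [Complex.norm_ofNat]
    gcongr
    refine (norm_sub_le _ _).trans ?_
    rw [norm_mul, Complex.norm_conj]
    gcongr
  have : ‖z - w‖ = 0 := by linarith [norm_nonneg (z - w)]
  exact sub_eq_zero.1 (norm_eq_zero.1 this)

lemma f_maps : MapsTo (fun z => hh z + conj (gg z)) (ball 0 1) (ball 0 1) := by
  intro z hz
  simp only [f_eq]
  rw [mem_ball_zero_iff] at hz ⊢
  have n1 : normSq z < 1 := by rw [normSq_eq_norm_sq]; nlinarith [norm_nonneg z]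
  have n0 := normSq_nonneg z
  have hb : ‖z ^ 3 - conj z‖ ≤ 2 := by
    refine (norm_sub_le _ _).trans ?_
    rw [norm_pow, Complex.norm_conj]
    have : ‖z‖ ^ 3 ≤ 1 := pow_le_one₀ (norm_nonneg _) hz.le
    linarith
  have hb2 : normSq (z ^ 3 - conj z) ≤ 4 := by
    rw [normSq_eq_norm_sq]; nlinarith [norm_nonneg (z ^ 3 - conj z)]
  have hA : -normSq z ≤ (z ^ 2).re := by
    rw [normSq_apply, sq, mul_re]; nlinarith [mul_self_nonneg z.re]
  have e : normSq (z + (z ^ 3 - conj z) / 20)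
      = normSq z + (normSq z - 1) * (z ^ 2).re / 10 + normSq (z ^ 3 - conj z) / 400 := by
    rw [normSq_add, map_div₀]
    simp only [normSq_apply, pow_succ, pow_zero, one_mul, mul_re, mul_im, map_div₀, map_sub,
      map_mul, conj_conj, map_ofNat, div_ofNat_re, div_ofNat_im, sub_re, sub_im, conj_re, conj_im,
      re_ofNat, im_ofNat]
    ring
  have h1 : normSq (z + (z ^ 3 - conj z) / 20) ≤ 101 / 100 := by
    rw [e]; nlinarith
  have h2 : normSq (199 / 200 * (z + (z ^ 3 - conj z) / 20)) < 1 := by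
    rw [map_mul]
    have : normSq (199 / 200 : ℂ) = (199 / 200) ^ 2 := by
      rw [map_div₀]; simp; norm_num
    rw [this]; nlinarith
  rw [normSq_eq_norm_sq] at h2
  nlinarith [norm_nonneg (199 / 200 * (z + (z ^ 3 - conj z) / 20))]

lemma jac (z : ℂ) : normSq (199 / 200 * (1 + 3 * z ^ 2 / 20)) - normSq (-(199 / 4000) : ℂ)
    = (199 / 200) ^ 2 * ((1 + 3 * (z ^ 2).re / 20) ^ 2 + (3 * (z ^ 2).im / 20) ^ 2 - 1 / 400) := by
  simp only [normSq_apply, mul_re, mul_im, div_ofNat_re, div_ofNat_im, add_re, add_im, neg_re,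
    neg_im, one_re, one_im, re_ofNat, im_ofNat]
  ring

theorem result : ∃ (E : Set ℂ) (f : ℂ → ℂ), MeasurableSet E ∧ E ⊆ ball 0 1 ∧ InH f ∧
    (∀ (θ : ℝ) (a : ℂ), ‖a‖ < 1 → volume (aut θ a '' E) ≤ volume E) ∧
    volume E < volume (f '' E) := by
  have hsub : E ⊆ ball 0 1 := fun z hz => mem_ball_zero_iff.2 (by linarith [hz.2])
  refine ⟨E, fun z => hh z + conj (gg z), E_open.measurableSet, hsub,
    ⟨hh, gg, fun z _ => (hh_deriv z).differentiableAt.differentiableWithinAt,
      fun z _ => (gg_deriv z).differentiableAt.differentiableWithinAt, fun _ _ => rfl,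
      fun z hz => ?_, f_inj, f_maps⟩, fun θ a ha => aut_area θ ha, ?_⟩
  · rw [(hh_deriv z).deriv, (gg_deriv z).deriv, ← normSq_eq_norm_sq, ← normSq_eq_norm_sq, jac]
    have h1 : -1 ≤ (z ^ 2).re := by
      have := abs_re_le_norm (z ^ 2)
      rw [norm_pow] at this
      have h2 : ‖z‖ ^ 2 ≤ 1 := pow_le_one₀ (norm_nonneg _) (mem_ball_zero_iff.1 hz).le
      linarith [neg_abs_le (z ^ 2).re]
    have := sq_nonneg (3 * (z ^ 2).im / 20)
    nlinarith
  · rw [area E_open.measurableSet (fun z _ => hh_deriv z) (fun z _ => gg_deriv z)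
      (f_inj.mono hsub)]
    have h0 : volume E ≠ 0 := by
      refine (E_open.measure_pos volume ⟨3 / 10, ?_, ?_⟩).ne'
      · simp [sq]; norm_num
      · simp; norm_num
    have ht : volume E ≠ ⊤ := ((measure_mono hsub).trans_lt measure_ball_lt_top).ne
    calc volume E = 1 * volume E := (one_mul _).symm
      _ < ENNReal.ofReal (1001 / 1000) * volume E := by
          refine ENNReal.mul_lt_mul_left h0 ht ?_
          rw [← ENNReal.ofReal_one]
          exact (ENNReal.ofReal_lt_ofReal_iff (by norm_num)).2 (by norm_num)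
      _ ≤ _ := by
          rw [← setLIntegral_const]
          refine setLIntegral_mono' E_open.measurableSet fun z hz => ?_
          refine ENNReal.ofReal_le_ofReal (le_trans ?_ (le_abs_self _))
          rw [jac]
          have := sq_nonneg (3 * (z ^ 2).im / 20)
          have h1 := hz.1
          nlinarith

end Pool.Agent.Results.MP_6004b5_an.No
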